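import Pool.Agent.Helper91.FBL.Main

/-!
Octahedrality of the free Banach lattice `FBL[E]` over an `L₁`-predual `E` with the Daugavet
property, and more generally over any `L₁`-predual with octahedral norm.
-/

set_option autoImplicit false

namespace Pool.Agent.Results.MP_93c18e_an.FBLOctahedral

open Pool.Agent.Helper91.FreeLat

universe u v

/-- Let `E` be a (nonzero) real Banach space which is an `L₁`-predual. If `E` has the Daugavet
property then the norm of `FBL[E]` is octahedral; more generally this holds as soon as the norm
of `E` is octahedral. -/
theorem result (E : Type u) [NormedAddCommGroup E] [NormedSpace ℝ E] [CompleteSpace E]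
    [Nontrivial E] (hE : IsL1Predual.{u, v} E) :
    (Daugavet E → FBLOctahedral E) ∧ (Octahedral E → FBLOctahedral E) :=
  ⟨fun hD => fblOctahedral_of_octahedral hE hD.octahedral,
    fun hO => fblOctahedral_of_octahedral hE hO⟩

end Pool.Agent.Results.MP_93c18e_an.FBLOctahedral
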